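import Pool.Agent.DCIG.Relation

/-!
# The trivial character: Roitman's theorem

Let `V` be the set of the common zeros of the forms `f i` of degrees `d i` in the projective space
of dimension `N - 1`. If `∑ i, d i < N` then all points of `V` are rationally equivalent (with
rational coefficients). For two points `z` and `z'` of `V` we solve over the algebraic closure of
`k(s)` the `∑ i, d i` equations `f i (y) = 0` and `(1 - s) L_e (z, y) + s L_e (z', y) = 0` for
`0 < e < d i`, where `L_e` is the coefficient of `T ^ e` in `f i (z + T y)`. At a place above `s = 0`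
the solution becomes a point of a line in `V` through `z`, and above `s = 1` a point of a line in `V`
through `z'`.
-/

open Polynomial
open scoped LinearAlgebra.Projectivization

namespace Pool.Agent.DCIG

open Pool.Agent.ZCyc Pool.Agent.DCI57

universe u w

variable {k : Type u} [Field k] {J : Type} {m : ℕ}

/-- the coefficient of `T ^ n` in `f (z + T y)`, a form of degree `n` in `y` -/
noncomputable def polar (z : J → k) (f : MvPolynomial J k) (n : ℕ) : MvPolynomial J k :=
  (line (fun j => MvPolynomial.C (z j)) MvPolynomial.X f).coeff n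

lemma polar_homogeneous (z : J → k) (f : MvPolynomial J k) (n : ℕ) :
    (polar z f n).IsHomogeneous n :=
  line_coeff_homogeneous z (fun j => MvPolynomial.isHomogeneous_X _ j) f n

lemma eval_polar (z w : J → k) (f : MvPolynomial J k) (n : ℕ) :
    MvPolynomial.eval w (polar z f n) = (line z w f).coeff n := by
  have h1 := line_map (MvPolynomial.aeval w : MvPolynomial J k →ₐ[k] k)
    (fun j => MvPolynomial.C (z j)) MvPolynomial.X f
  have h2 := congrArg (fun P : k[X] => P.coeff n) h1
  simp only [Polynomial.coeff_map] at h2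
  rw [eval_eq_aeval]
  unfold polar
  have h3 : line (fun j => (MvPolynomial.aeval w : MvPolynomial J k →ₐ[k] k)
      (MvPolynomial.C (z j))) (fun j => (MvPolynomial.aeval w : MvPolynomial J k →ₐ[k] k)
      (MvPolynomial.X j)) f = line z w f := by
    congr 1
    · funext j
      simp
    · funext j
      simp
  rw [h3] at h2
  exact h2

/-- the curve -/
theorem exists_curve [IsAlgClosed k] [CharZero k] [Fintype J] (hm : 0 < m) {r : ℕ}
    {f : Fin r → MvPolynomial J k} {d : Fin r → ℕ} (hf : ∀ i, (f i).IsHomogeneous (d i))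
    (hd : ∀ i, d i ≠ 0) (hcard : ∑ i, d i < Fintype.card J) (z z' : J → k) :
    ∃ (F : Type u) (_ : Field F) (_ : Algebra k F)
    (_ : Algebra (RatFunc k) F) (_ : IsScalarTower k (RatFunc k) F)
    (_ : FiniteDimensional (RatFunc k) F) (_ : IsGalois (RatFunc k) F) (x : J → F),
    (∃ j, x j ≠ 0) ∧ (∀ i, MvPolynomial.aeval (fun j => x j ^ m) (f i) = 0) ∧
    ∀ i n, 1 ≤ n → n < d i →
      (1 - algebraMap (RatFunc k) F RatFunc.X) *
        MvPolynomial.aeval (fun j => x j ^ m) (polar z (f i) n) +
      algebraMap (RatFunc k) F RatFunc.X *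
        MvPolynomial.aeval (fun j => x j ^ m) (polar z' (f i) n) = 0 := by
  classical
  let Ω := AlgebraicClosure (RatFunc k)
  have : IsScalarTower k (RatFunc k) Ω := inferInstance
  set s : Ω := algebraMap (RatFunc k) Ω RatFunc.X with hs
  let E : (Fin r ⊕ (Σ i, Fin (d i - 1))) → MvPolynomial J Ω := Sum.elim
    (fun i => MvPolynomial.map (algebraMap k Ω) (f i))
    (fun t => MvPolynomial.C (1 - s) *
        MvPolynomial.map (algebraMap k Ω) (polar z (f t.1) (t.2 + 1)) +
      MvPolynomial.C s * MvPolynomial.map (algebraMap k Ω) (polar z' (f t.1) (t.2 + 1)))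
  have hE0 : ∀ t, MvPolynomial.eval 0 (E t) = 0 := by
    rintro (i | t)
    · exact eval_zero_of_homogeneous ((hf i).map (algebraMap k Ω)) (hd i)
    · have h1 : ∀ g : MvPolynomial J k, g.IsHomogeneous ((t.2 : ℕ) + 1) →
          MvPolynomial.eval (0 : J → Ω) (MvPolynomial.map (algebraMap k Ω) g) = 0 := fun g hg =>
        eval_zero_of_homogeneous (hg.map (algebraMap k Ω)) (Nat.succ_ne_zero _)
      simp only [E, Sum.elim_inr, map_add, map_mul]
      rw [h1 _ (polar_homogeneous _ _ _), h1 _ (polar_homogeneous _ _ _), mul_zero, mul_zero,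
        add_zero]
  have hcard' : Fintype.card (Fin r ⊕ (Σ i, Fin (d i - 1))) < Fintype.card J := by
    refine lt_of_le_of_lt (le_of_eq ?_) hcard
    rw [Fintype.card_sum, Fintype.card_sigma, Fintype.card_fin]
    have h1 : ∑ i, d i = ∑ i : Fin r, (1 + (d i - 1)) := by
      apply Finset.sum_congr rfl
      intro i _
      have := hd i
      omega
    rw [h1, Finset.sum_add_distrib]
    simp
  obtain ⟨y, hy0, hy⟩ := exists_common_zero E hcard' hE0
  have hx : ∀ j, ∃ x : Ω, x ^ m = y j := fun j => IsAlgClosed.exists_pow_nat_eq _ hm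
  choose x hx using hx
  let S : Set Ω := Set.range x
  let L1 : IntermediateField (RatFunc k) Ω := IntermediateField.adjoin (RatFunc k) S
  have hfd : FiniteDimensional (RatFunc k) L1 := by
    have : Finite S := (Set.finite_range x).to_subtype
    exact IntermediateField.finiteDimensional_adjoin fun z _ =>
      Algebra.IsIntegral.isIntegral z
  let F : IntermediateField (RatFunc k) Ω := IntermediateField.normalClosure (RatFunc k) L1 Ω
  have hLF : L1 ≤ F := IntermediateField.le_normalClosure L1
  have hxF : ∀ j, x j ∈ F := fun j =>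
    hLF (IntermediateField.subset_adjoin (RatFunc k) S ⟨j, rfl⟩)
  have : Normal (RatFunc k) F := normalClosure.normal (RatFunc k) L1 Ω
  have : FiniteDimensional (RatFunc k) F := normalClosure.is_finiteDimensional (RatFunc k) L1 Ω
  have : IsGalois (RatFunc k) F := {}
  have htow : IsScalarTower k F Ω := IsScalarTower.of_algebraMap_eq fun _ => rfl
  have key : ∀ g : MvPolynomial J k, algebraMap F Ω (MvPolynomial.aeval
      (fun j => (⟨x j, hxF j⟩ : F) ^ m) g) =
      MvPolynomial.eval y (MvPolynomial.map (algebraMap k Ω) g) := by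
    intro g
    have h1 := MvPolynomial.comp_aeval_apply (IsScalarTower.toAlgHom k F Ω)
      (f := fun j => (⟨x j, hxF j⟩ : F) ^ m) g
    have h2 : (fun j => (IsScalarTower.toAlgHom k F Ω) ((⟨x j, hxF j⟩ : F) ^ m)) = y := by
      funext j
      rw [map_pow]
      exact hx j
    rw [h2] at h1
    rw [MvPolynomial.eval_map, ← MvPolynomial.aeval_def]
    exact h1
  refine ⟨F, inferInstance, inferInstance, inferInstance, inferInstance, inferInstance,
    inferInstance, fun j => ⟨x j, hxF j⟩, ?_, fun i => ?_, fun i n hn hnd => ?_⟩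
  · by_contra hcon
    push Not at hcon
    apply hy0
    funext j
    have h1 : x j = 0 := congrArg Subtype.val (hcon j)
    rw [← hx j, h1, zero_pow hm.ne']
    rfl
  · apply (algebraMap F Ω).injective
    rw [key, map_zero]
    exact hy (Sum.inl i)
  · apply (algebraMap F Ω).injective
    rw [map_add, map_mul, map_mul, key, key, map_zero, map_sub, map_one]
    have h1 := hy (Sum.inr ⟨i, ⟨n - 1, by omega⟩⟩)
    simp only [E, Sum.elim_inr, map_add, map_mul, MvPolynomial.eval_C, Nat.sub_add_cancel hn] at h1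
    exact h1

/-- the value of a polar form on the curve -/
lemma eval_polar_zero {F : Type*} [Field F] [Algebra k F] {v : Place k F} {x : J → F}
    {p : ℙ k (J → k)} (h : IsValue v x p) {g g' : MvPolynomial J k} {n : ℕ}
    (hg : g.IsHomogeneous n) (hg' : g'.IsHomogeneous n) {a b : F} (ha : v.At a 1)
    (hb : v.At b 0) (hx : a * MvPolynomial.aeval (fun j => x j ^ m) g +
      b * MvPolynomial.aeval (fun j => x j ^ m) g' = 0) :
    MvPolynomial.eval (fun j => p.rep j ^ m) g = 0 := by
  obtain ⟨c, hc⟩ := isValue_iff.1 h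
  have h1 := at_aeval (fun j => (hc j).pow m) g
  have h1' := at_aeval (fun j => (hc j).pow m) g'
  have h2 : (fun j => (c * x j) ^ m) = fun j => c ^ m * x j ^ m := funext fun j => mul_pow _ _ _
  rw [h2, aeval_mul hg] at h1
  rw [h2, aeval_mul hg'] at h1'
  have h3 := (ha.mul h1).add (hb.mul h1')
  have h4 : a * ((c ^ m) ^ n * MvPolynomial.aeval (fun j => x j ^ m) g) +
      b * ((c ^ m) ^ n * MvPolynomial.aeval (fun j => x j ^ m) g') = 0 := by
    have h5 : a * ((c ^ m) ^ n * MvPolynomial.aeval (fun j => x j ^ m) g) +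
        b * ((c ^ m) ^ n * MvPolynomial.aeval (fun j => x j ^ m) g') = (c ^ m) ^ n *
        (a * MvPolynomial.aeval (fun j => x j ^ m) g +
          b * MvPolynomial.aeval (fun j => x j ^ m) g') := by ring
    rw [h5, hx, mul_zero]
  rw [h4, one_mul, zero_mul, add_zero] at h3
  exact h3.unique (by simpa using Place.at_const (v := v) (0 : k))

variable [Fintype J] [DecidableEq J] [NeZero m] {R : Type w} [Field R] [CharZero R]

/-- points of a line -/
theorem trivial_line [IsAlgClosed k] [CharZero k] {ζ : kˣ} (hζ : IsPrimitiveRoot (ζ : k) m)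
    {r : ℕ} {f : Fin r → MvPolynomial J k} {d : Fin r → ℕ} (hf : ∀ i, (f i).IsHomogeneous (d i))
    {p q : ℙ k (J → k)}
    (hl : ∀ i, line (fun j => p.rep j ^ m) (fun j => q.rep j ^ m) (f i) = 0)
    {ψ : AddChar (J → ZMod m) R} (hψ : ∀ t, ψ t = 1) :
    op ζ ψ (Finsupp.single p 1) - op ζ ψ (Finsupp.single q 1) ∈ ratEquiv R (Zeros m f) := by
  have hζ1 : ζ ^ m = 1 := by
    apply Units.ext
    push_cast
    exact hζ.pow_eq_one
  obtain ⟨g, h, hgh⟩ := relation (R := R) hζ hf
    (P := fun j => X * C (p.rep j ^ m) + (1 - X) * C (q.rep j ^ m))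
    (fun i => aeval_line_zero (hf i) (hl i) (A := X) (B := 1 - X) X_ne_zero (fun j => rfl))
    (a := 1) (b := 0) (p := p) (q := q) one_ne_zero one_ne_zero (by simp) (by simp) ψ
    (fun {F} _ _ _ _ x hx τ t ht => hψ t)
  have h1 := op_act hζ1 ψ g p
  have h2 := op_act hζ1 ψ h q
  rw [hψ, one_smul] at h1 h2
  rwa [h1, h2] at hgh

/-- **Roitman's theorem**, for the invariant part of the Chow group. -/
theorem trivial_part [IsAlgClosed k] [CharZero k] {ζ : kˣ} (hζ : IsPrimitiveRoot (ζ : k) m)
    {r : ℕ} {f : Fin r → MvPolynomial J k} {d : Fin r → ℕ} (hf : ∀ i, (f i).IsHomogeneous (d i))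
    (hd : ∀ i, d i ≠ 0) (hcard : ∑ i, d i < Fintype.card J) {p q : ℙ k (J → k)}
    (hp : p ∈ Zeros m f) (hq : q ∈ Zeros m f) {ψ : AddChar (J → ZMod m) R} (hψ : ∀ t, ψ t = 1) :
    op ζ ψ (Finsupp.single p 1) - op ζ ψ (Finsupp.single q 1) ∈ ratEquiv R (Zeros m f) := by
  classical
  have hζ1 : ζ ^ m = 1 := by
    apply Units.ext
    push_cast
    exact hζ.pow_eq_one
  obtain ⟨F, _, _, _, _, _, _, x, hx0, hx, hxe⟩ := exists_curve (NeZero.pos m) hf hd hcard
    (fun j => p.rep j ^ m) (fun j => q.rep j ^ m)
  have hval : ∀ v : Place k F, ∃ p, IsValue v x p := fun v => exists_value v hx0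
  choose φ hφ using hval
  have hφX : ∀ v, φ v ∈ Zeros m f := fun v => IsValue.mem_Zeros (hφ v) hf hx
  have htr : Transcendental k (algebraMap (RatFunc k) F RatFunc.X) := by
    rw [transcendental_algebraMap_iff (algebraMap (RatFunc k) F).injective]
    exact RatFunc.transcendental_X
  obtain ⟨v, hv⟩ := exists_place htr 0
  obtain ⟨w, hw⟩ := exists_place htr 1
  have hv' : v.Vanishes (algebraMap (RatFunc k) F (RatFunc.X - RatFunc.C 0)) := by
    rw [algebraMap_sub_C]
    exact hv
  have hw' : w.Vanishes (algebraMap (RatFunc k) F (RatFunc.X - RatFunc.C 1)) := by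
    rw [algebraMap_sub_C]
    exact hw
  have hat : ∀ (u : Place k F) (c : k) (τ : F ≃ₐ[RatFunc k] F),
      u.At (algebraMap (RatFunc k) F RatFunc.X) c →
      (u.map (τ.restrictScalars k)).At (algebraMap (RatFunc k) F RatFunc.X) c := by
    intro u c τ hu
    rw [Place.at_map]
    have : (τ.restrictScalars k).symm (algebraMap (RatFunc k) F RatFunc.X) =
        algebraMap (RatFunc k) F RatFunc.X := τ.symm.commutes _
    rw [this]
    exact hu
  have hone : ∀ u : Place k F, u.At (1 : F) 1 := fun u => by
    simpa using Place.at_const (v := u) (1 : k)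
  -- points above `0`
  have h0 : ∀ u : Place k F, u.At (algebraMap (RatFunc k) F RatFunc.X) 0 →
      op ζ ψ (Finsupp.single p 1) - op ζ ψ (Finsupp.single (φ u) 1) ∈
        ratEquiv R (Zeros m f) := by
    intro u hu
    apply trivial_line hζ hf _ hψ
    intro i
    apply line_zero_of_coeff (hf i) (hp i) (hφX u i)
    intro n hn hnd
    rw [← eval_polar]
    refine eval_polar_zero (hφ u) (polar_homogeneous _ _ _)
      (polar_homogeneous (fun j => q.rep j ^ m) (f i) n) ?_ hu (hxe i n hn hnd)
    have := (hone u).sub hu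
    rwa [sub_zero] at this
  have h1 : ∀ u : Place k F, u.At (algebraMap (RatFunc k) F RatFunc.X) 1 →
      op ζ ψ (Finsupp.single q 1) - op ζ ψ (Finsupp.single (φ u) 1) ∈
        ratEquiv R (Zeros m f) := by
    intro u hu
    apply trivial_line hζ hf _ hψ
    intro i
    apply line_zero_of_coeff (hf i) (hq i) (hφX u i)
    intro n hn hnd
    rw [← eval_polar]
    have h2 : u.At (1 - algebraMap (RatFunc k) F RatFunc.X) 0 := by
      have := (hone u).sub hu
      rwa [sub_self] at this
    refine eval_polar_zero (hφ u) (polar_homogeneous _ _ _)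
      (polar_homogeneous (fun j => p.rep j ^ m) (f i) n) hu h2 ?_
    rw [add_comm]
    exact hxe i n hn hnd
  have hgen := op_mem (ζ := ζ) ψ (X := Zeros m f) (fun g p hp => act_mem hf hζ1 hp g)
    (gen_mem (R := R) hφ hφX hv' hw')
  rw [map_sum] at hgen
  have hsum : ∑ τ : F ≃ₐ[RatFunc k] F, (op ζ ψ (Finsupp.single p 1) -
      op ζ ψ (Finsupp.single q 1)) ∈ ratEquiv R (Zeros m f) := by
    have h2 : ∑ τ : F ≃ₐ[RatFunc k] F, (op ζ ψ (Finsupp.single p 1) -
        op ζ ψ (Finsupp.single q 1)) =
        ∑ τ : F ≃ₐ[RatFunc k] F, (op ζ ψ (Finsupp.single (φ (v.map (τ.restrictScalars k))) 1 -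
          Finsupp.single (φ (w.map (τ.restrictScalars k))) 1)) +
        ∑ τ : F ≃ₐ[RatFunc k] F, ((op ζ ψ (Finsupp.single p 1) -
          op ζ ψ (Finsupp.single (φ (v.map (τ.restrictScalars k))) 1)) -
          (op ζ ψ (Finsupp.single q 1) -
          op ζ ψ (Finsupp.single (φ (w.map (τ.restrictScalars k))) 1))) := by
      rw [← Finset.sum_add_distrib]
      apply Finset.sum_congr rfl
      intro τ _
      rw [map_sub]
      abel
    rw [h2]
    refine Submodule.add_mem _ hgen (Submodule.sum_mem _ fun τ _ => ?_)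
    exact Submodule.sub_mem _ (h0 _ (hat v 0 τ hv)) (h1 _ (hat w 1 τ hw))
  rw [Finset.sum_const, ← Nat.cast_smul_eq_nsmul R] at hsum
  have hcard : (((Finset.univ : Finset (F ≃ₐ[RatFunc k] F)).card : ℕ) : R) ≠ 0 := by
    rw [Nat.cast_ne_zero, Finset.card_ne_zero]
    exact ⟨1, Finset.mem_univ _⟩
  exact (Submodule.smul_mem_iff _ hcard).1 hsum

end Pool.Agent.DCIG
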