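import Pool.Agent.DCIG.Vanish
import Pool.Agent.DCIG.Roitman
import Pool.Agent.DCI57.Algebra
import Pool.Agent.SavChen.Split

/-!
# The action of the group algebra on zero-cycles
-/

open scoped LinearAlgebra.Projectivization

namespace Pool.Agent.DCIG

open Pool.Agent.ZCyc Pool.Agent.DCI57

universe u w

variable {k : Type u} [Field k] {J : Type} [Fintype J] [DecidableEq J] {m : ℕ} [NeZero m]

/-- the numerical condition: if no conjugate of the character `a` occurs in the space of holomorphic
forms then the support of `a` can be divided into sufficiently many zero-sum blocks -/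
lemma exists_blocks {D : ℕ}
    (hm : (m ≤ 5 ∨ m = 7) ∨ (D - 1) * m + m / 2 + 2 ≤ Fintype.card J)
    {a : J → ZMod m}
    (ha : ∀ u : (ZMod m)ˣ, ∀ b : J → ℕ, (∀ j, 1 ≤ b j) → ∑ j, b j = D * m →
      ¬ ∀ j, (b j : ZMod m) = u * a j) (hsum : ∑ j, a j = 0) {S : Finset J}
    (hS : ∀ j, j ∈ S ↔ a j ≠ 0) (hne : S.Nonempty) :
    ∃ (e : ℕ) (b : J → Fin e), (∀ B, ∃ j ∈ S, b j = B) ∧
      (∀ B, ∑ j ∈ S with b j = B, a j = 0) ∧ S.card + D < Fintype.card J + e := by
  classical
  have hm0 : 0 < m := NeZero.pos m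
  have hSsum : ∑ j ∈ S, a j = 0 := by
    rw [← hsum]
    apply Finset.sum_subset (Finset.subset_univ S)
    intro j _ hj
    by_contra h0
    exact hj ((hS j).2 h0)
  have hcardS : S.card ≤ Fintype.card J := Finset.card_le_univ S
  have hq : ∀ u : (ZMod m)ˣ, m * (S.card + D + 1 - Fintype.card J) ≤
      ∑ j ∈ S, ((u : ZMod m) * a j).val := by
    intro u
    by_contra hcon
    push Not at hcon
    obtain ⟨s, hs⟩ : m ∣ ∑ j ∈ S, ((u : ZMod m) * a j).val := by
      rw [← ZMod.natCast_eq_zero_iff]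
      push_cast
      simp only [ZMod.natCast_val, ZMod.cast_id', id_eq]
      rw [← Finset.mul_sum, hSsum, mul_zero]
    rw [hs] at hcon
    have hs1 : s < S.card + D + 1 - Fintype.card J := lt_of_mul_lt_mul_left hcon (Nat.zero_le m)
    obtain ⟨i, hi⟩ := hne
    set b₀ : J → ℕ := fun j => if j ∈ S then ((u : ZMod m) * a j).val else m with hb₀
    have hb₀sum : ∑ j, b₀ j = m * s + m * (Fintype.card J - S.card) := by
      rw [hb₀, Finset.sum_ite]
      congr 1
      · rw [← hs]
        apply Finset.sum_congr _ fun _ _ => rfl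
        ext j
        simp
      · rw [Finset.sum_const, smul_eq_mul, mul_comm]
        congr 1
        have h1 : (Finset.univ.filter fun j => j ∉ S) = Finset.univ \ S := by
          ext j
          simp
        rw [h1, Finset.card_sdiff_of_subset (Finset.subset_univ S), Finset.card_univ]
    have hle : s + (Fintype.card J - S.card) ≤ D := by omega
    set n : ℕ := D - (s + (Fintype.card J - S.card)) with hn
    set b : J → ℕ := fun j => b₀ j + if j = i then m * n else 0 with hb
    have hb1 : ∀ j, 1 ≤ b j := by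
      intro j
      have h1 : 1 ≤ b₀ j := by
        simp only [hb₀]
        split_ifs with hj
        · have h2 : (u : ZMod m) * a j ≠ 0 := by
            intro h0
            exact (hS j).1 hj ((Units.mul_right_eq_zero u).1 h0)
          exact Nat.one_le_iff_ne_zero.2 fun h0 => h2 ((ZMod.val_eq_zero _).1 h0)
        · exact hm0
      exact h1.trans (Nat.le_add_right _ _)
    have hb2 : ∑ j, b j = D * m := by
      rw [hb, Finset.sum_add_distrib, hb₀sum, Finset.sum_ite_eq' Finset.univ i]
      simp only [Finset.mem_univ, if_true]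
      rw [← mul_add, ← mul_add, mul_comm]
      congr 1
      omega
    apply ha u b hb1 hb2
    intro j
    simp only [hb, hb₀]
    push_cast
    by_cases hj : j ∈ S
    · simp only [hj, if_true]
      simp
    · have h5 : a j = 0 := by
        by_contra h0
        exact hj ((hS j).2 h0)
      simp [hj, h5]
  obtain ⟨e, b, hqe, hb1, hb2, hb3⟩ : ∃ (e : ℕ) (b : J → ℕ), S.card + D + 1 - Fintype.card J ≤ e ∧
      (∀ j ∈ S, b j < e) ∧ (∀ i < e, ∃ j ∈ S, b j = i) ∧
      ∀ i < e, ∑ j ∈ S with b j = i, a j = 0 := by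
    rcases hm with hm | hm
    · have hm1 : m ≠ 1 := by
        rintro rfl
        obtain ⟨j, hj⟩ := hne
        exact (hS j).1 hj (Subsingleton.elim _ _)
      exact exists_split (by omega) a S (fun j hj => (hS j).1 hj) hSsum _ hq
    · rcases Nat.lt_or_ge (S.card + D + 1 - Fintype.card J) 2 with hq2 | hq2
      · exact (Pool.Agent.SavChen.splits_one hne hSsum).mono (by omega)
      · refine Pool.Agent.SavChen.exists_split_long a S (fun j hj => (hS j).1 hj) hSsum _ ?_ hq
        obtain ⟨y, hy⟩ := Nat.exists_eq_add_of_le hcardS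
        obtain ⟨t, ht⟩ := Nat.exists_eq_add_of_le hq2
        have h2 : S.card + D + 1 - Fintype.card J - 2 = t := by omega
        have h3 : D - 1 = t + y := by omega
        rw [h2]
        rw [h3, hy, Nat.add_mul] at hm
        have h4 : y ≤ y * m := Nat.le_mul_of_pos_right y hm0
        omega
  have he : 0 < e := by
    obtain ⟨i, hi⟩ := hne
    exact lt_of_le_of_lt (Nat.zero_le _) (hb1 i hi)
  refine ⟨e, fun j => if h : b j < e then ⟨b j, h⟩ else ⟨0, he⟩, ?_, ?_, ?_⟩
  · intro B
    obtain ⟨j, hj, hjB⟩ := hb2 B.1 B.2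
    refine ⟨j, hj, ?_⟩
    simp only [dif_pos (hb1 j hj)]
    exact Fin.ext hjB
  · intro B
    rw [← hb3 B.1 B.2]
    apply Finset.sum_congr _ fun _ _ => rfl
    ext j
    simp only [Finset.mem_filter]
    constructor
    · rintro ⟨h1, h2⟩
      rw [dif_pos (hb1 j h1)] at h2
      exact ⟨h1, by rw [← h2]⟩
    · rintro ⟨h1, h2⟩
      refine ⟨h1, ?_⟩
      rw [dif_pos (hb1 j h1)]
      exact Fin.ext h2
  · omega

/-- the action of the group algebra, complex coefficients -/
theorem algebra_complex [IsAlgClosed k] [CharZero k]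
    {ζ : kˣ} (hζ : IsPrimitiveRoot (ζ : k) m) {r : ℕ} {f : Fin r → MvPolynomial J k}
    {d : Fin r → ℕ} (hf : ∀ i, (f i).IsHomogeneous (d i)) (hd : ∀ i, d i ≠ 0)
    (hm : (m ≤ 5 ∨ m = 7) ∨ (∑ i, d i - 1) * m + m / 2 + 2 ≤ Fintype.card J)
    (α : (J → ZMod m) → ℚ)
    (hα : ∀ b : J → ℕ, (∀ j, 1 ≤ b j) → ∑ j, b j = (∑ i, d i) * m →
      ∑ g, (α g : k) * (ζ : k) ^ (∑ j, (b j : ZMod m) * g j).val = 0)
    {p q : ℙ k (J → k)} (hp : p ∈ Zeros m f) (hq : q ∈ Zeros m f) :
    ∑ g, (α g : ℂ) • (Finsupp.single (act ζ g p) (1 : ℂ) - Finsupp.single (act ζ g q) 1) ∈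
      ratEquiv ℂ (Zeros m f) := by
  classical
  have hm0 : 0 < m := NeZero.pos m
  have hζ1 : ζ ^ m = 1 := by
    apply Units.ext
    push_cast
    exact hζ.pow_eq_one
  have hω := Complex.isPrimitiveRoot_exp m (NeZero.ne m)
  set ω : ℂ := Complex.exp (2 * Real.pi * Complex.I / m) with hωdef
  -- each character
  have key : ∀ ψ : AddChar (J → ZMod m) ℂ,
      (∑ h, (α h : ℂ) * ψ (-h)) • (op ζ ψ (Finsupp.single p 1) - op ζ ψ (Finsupp.single q 1)) ∈
        ratEquiv ℂ (Zeros m f) := by
    intro ψ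
    by_cases hψα : ∑ h, (α h : ℂ) * ψ (-h) = 0
    · rw [hψα, zero_smul]
      exact Submodule.zero_mem _
    apply Submodule.smul_mem
    obtain ⟨a, ha⟩ := exists_exponents hω ψ
    by_cases h0 : ∀ j, a j = 0
    · rcases Nat.lt_or_ge (∑ i, d i) (Fintype.card J) with hD | hD
      · apply trivial_part hζ hf hd hD hp hq
        intro t
        rw [ha]
        simp [h0]
      · exfalso
        apply hψα
        obtain ⟨j₀, -⟩ : ∃ j, p.rep j ≠ 0 := by
          by_contra hcon
          push Not at hcon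
          exact p.rep_nonzero (funext hcon)
        have h1 := hα (fun j => m * (1 + if j = j₀ then ∑ i, d i - Fintype.card J else 0)) (by
          intro j
          exact Nat.mul_pos hm0 (by omega)) (by
          rw [← Finset.mul_sum, Finset.sum_add_distrib, Finset.sum_ite_eq' Finset.univ j₀]
          simp only [Finset.sum_const, Finset.card_univ, smul_eq_mul, mul_one, Finset.mem_univ,
            if_true]
          rw [mul_comm]
          congr 1
          omega)
        have h2 : ∑ h, (α h : k) = 0 := by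
          rw [← h1]
          apply Finset.sum_congr rfl
          intro h _
          simp
        have h3 : ∑ h, α h = 0 := by
          have h4 : ((∑ h, α h : ℚ) : k) = 0 := by
            rw [← h2]
            push_cast
            rfl
          exact_mod_cast h4
        have h4 : ∀ t, ψ t = 1 := by
          intro t
          rw [ha]
          simp [h0]
        simp only [h4, mul_one]
        rw [← Rat.cast_sum, h3, Rat.cast_zero]
    push Not at h0
    by_cases hsum : ∑ j, a j = 0
    · set S : Finset J := Finset.univ.filter fun j => a j ≠ 0 with hSdef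
      have hS : ∀ j, j ∈ S ↔ a j ≠ 0 := by
        intro j
        simp [hSdef]
      have hne : S.Nonempty := by
        obtain ⟨j, hj⟩ := h0
        exact ⟨j, (hS j).2 hj⟩
      obtain ⟨e, b, hb, hbsum, hcard⟩ := exists_blocks hm (a := a) (by
        intro u b hb1 hb2 hb3
        apply hψα
        have h1 := hα b hb1 hb2
        -- the root of unity `ω ^ (-u⁻¹)`
        have h2 : IsPrimitiveRoot (ω ^ ((-u⁻¹ : (ZMod m)ˣ) : ZMod m).val) m :=
          hω.pow_of_coprime _ (ZMod.val_coe_unit_coprime _)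
        have h3 := conj_relation hζ h2 α (fun g => (∑ j, (b j : ZMod m) * g j).val) h1
        rw [← h3]
        apply Finset.sum_congr rfl
        intro g _
        congr 1
        rw [ha, ← pow_val_mul hω]
        congr 2
        simp only [hb3]
        rw [Finset.mul_sum]
        apply Finset.sum_congr rfl
        intro j _
        have h4 : ((-u⁻¹ : (ZMod m)ˣ) : ZMod m) * ((u : ZMod m) * a j * g j) =
            -(((u⁻¹ : (ZMod m)ˣ) : ZMod m) * (u : ZMod m)) * (a j * g j) := by
          push_cast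
          ring
        rw [h4, Units.inv_mul, Pi.neg_apply]
        ring) hsum hS hne
      exact Submodule.sub_mem _ (vanish hζ hf hω ha hS hne b hb hbsum hcard hp)
        (vanish hζ hf hω ha hS hne b hb hbsum hcard hq)
    · have h1 : ψ (fun _ => 1) ≠ 1 := by
        rw [ha]
        intro h2
        rw [hω.pow_eq_one_iff_dvd] at h2
        apply hsum
        have h3 := (ZMod.val_eq_zero _).1 (Nat.eq_zero_of_dvd_of_lt h2 (ZMod.val_lt _))
        simpa using h3
      rw [op_eq_zero hζ1 ψ (act_const ζ 1 p) h1, op_eq_zero hζ1 ψ (act_const ζ 1 q) h1, sub_zero]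
      exact Submodule.zero_mem _
  -- summation over all characters
  have hsum : ∀ p : ℙ k (J → k), ∑ ψ : AddChar (J → ZMod m) ℂ,
      (∑ h, (α h : ℂ) * ψ (-h)) • op ζ ψ (Finsupp.single p 1) =
      (Fintype.card (J → ZMod m) : ℂ) • ∑ g, (α g : ℂ) • Finsupp.single (act ζ g p) (1 : ℂ) := by
    intro p
    simp only [op_single, Finset.smul_sum]
    rw [Finset.sum_comm]
    apply Finset.sum_congr rfl
    intro g _
    have h1 : ∀ ψ : AddChar (J → ZMod m) ℂ, (∑ h, (α h : ℂ) * ψ (-h)) •
        Finsupp.single (act ζ g p) (ψ g) =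
        Finsupp.single (act ζ g p) (∑ h, (α h : ℂ) * ψ (g - h)) := by
      intro ψ
      rw [Finsupp.smul_single, smul_eq_mul, Finset.sum_mul]
      congr 1
      apply Finset.sum_congr rfl
      intro h _
      rw [sub_eq_add_neg, AddChar.map_add_eq_mul]
      ring
    rw [Finset.sum_congr rfl fun ψ _ => h1 ψ, ← Finsupp.single_finsetSum, Finset.sum_comm]
    have h2 : ∀ h : J → ZMod m, ∑ ψ : AddChar (J → ZMod m) ℂ, (α h : ℂ) * ψ (g - h) =
        if h = g then (α h : ℂ) * (Fintype.card (J → ZMod m) : ℂ) else 0 := by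
      intro h
      rw [← Finset.mul_sum, AddChar.sum_apply_eq_ite]
      by_cases hg : h = g
      · rw [if_pos hg, if_pos (sub_eq_zero.2 hg.symm)]
      · rw [if_neg hg, if_neg fun h' => hg (sub_eq_zero.1 h').symm, mul_zero]
    rw [Finset.sum_congr rfl fun h _ => h2 h, Finset.sum_ite_eq' Finset.univ g]
    simp only [Finset.mem_univ, if_true]
    rw [Finsupp.smul_single, Finsupp.smul_single, smul_eq_mul, smul_eq_mul, mul_one, mul_comm]
  have hfin : (Fintype.card (J → ZMod m) : ℂ) •
      ∑ g, (α g : ℂ) • (Finsupp.single (act ζ g p) (1 : ℂ) - Finsupp.single (act ζ g q) 1) ∈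
      ratEquiv ℂ (Zeros m f) := by
    simp only [smul_sub, Finset.sum_sub_distrib]
    rw [← hsum, ← hsum, ← Finset.sum_sub_distrib]
    simp only [← smul_sub]
    exact Submodule.sum_mem _ fun ψ _ => key ψ
  exact (Submodule.smul_mem_iff _ (Nat.cast_ne_zero.2 Fintype.card_ne_zero)).1 hfin

/-- the action of the group algebra, rational coefficients -/
theorem algebra_rational [IsAlgClosed k] [CharZero k]
    {ζ : kˣ} (hζ : IsPrimitiveRoot (ζ : k) m) {r : ℕ} {f : Fin r → MvPolynomial J k}
    {d : Fin r → ℕ} (hf : ∀ i, (f i).IsHomogeneous (d i)) (hd : ∀ i, d i ≠ 0)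
    (hm : (m ≤ 5 ∨ m = 7) ∨ (∑ i, d i - 1) * m + m / 2 + 2 ≤ Fintype.card J)
    (α : (J → ZMod m) → ℚ)
    (hα : ∀ b : J → ℕ, (∀ j, 1 ≤ b j) → ∑ j, b j = (∑ i, d i) * m →
      ∑ g, (α g : k) * (ζ : k) ^ (∑ j, (b j : ZMod m) * g j).val = 0)
    {p q : ℙ k (J → k)} (hp : p ∈ Zeros m f) (hq : q ∈ Zeros m f) :
    ∑ g, α g • (Finsupp.single (act ζ g p) (1 : ℚ) - Finsupp.single (act ζ g q) 1) ∈
      ratEquiv ℚ (Zeros m f) := by
  apply descent (R := ℂ)
  have h1 : Finsupp.mapRange (algebraMap ℚ ℂ) (map_zero _)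
      (∑ g, α g • (Finsupp.single (act ζ g p) (1 : ℚ) - Finsupp.single (act ζ g q) 1)) =
      ∑ g, (α g : ℂ) • (Finsupp.single (act ζ g p) (1 : ℂ) - Finsupp.single (act ζ g q) 1) := by
    have h2 : ∀ z : ℙ k (J → k) →₀ ℚ, Finsupp.mapRange (algebraMap ℚ ℂ) (map_zero _) z =
        Finsupp.mapRange.addMonoidHom (algebraMap ℚ ℂ : ℚ →+* ℂ).toAddMonoidHom z := fun _ => rfl
    rw [h2, map_sum]
    apply Finset.sum_congr rfl
    intro g _
    rw [smul_sub, smul_sub, map_sub]
    simp
  rw [h1]
  exact algebra_complex hζ hf hd hm α hα hp hq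

/-- the action of the group algebra on cycles of degree zero -/
theorem algebra_cycle [IsAlgClosed k] [CharZero k]
    {ζ : kˣ} (hζ : IsPrimitiveRoot (ζ : k) m) {r : ℕ} {f : Fin r → MvPolynomial J k}
    {d : Fin r → ℕ} (hf : ∀ i, (f i).IsHomogeneous (d i)) (hd : ∀ i, d i ≠ 0)
    (hm : (m ≤ 5 ∨ m = 7) ∨ (∑ i, d i - 1) * m + m / 2 + 2 ≤ Fintype.card J)
    (α : (J → ZMod m) → ℚ)
    (hα : ∀ b : J → ℕ, (∀ j, 1 ≤ b j) → ∑ j, b j = (∑ i, d i) * m →
      ∑ g, (α g : k) * (ζ : k) ^ (∑ j, (b j : ZMod m) * g j).val = 0)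
    (z : ℙ k (J → k) →₀ ℚ) (hz : ∀ p ∈ z.support, p ∈ Zeros m f)
    (hdeg : z.sum (fun _ n => n) = 0) :
    ∑ g, α g • z.mapDomain (act ζ g) ∈ ratEquiv ℚ (Zeros m f) := by
  classical
  rcases z.support.eq_empty_or_nonempty with h0 | ⟨q, hq⟩
  · rw [Finsupp.support_eq_empty] at h0
    rw [h0]
    simp
  have hdeg' : ∑ p ∈ z.support, z p = 0 := hdeg
  have h2 : z = ∑ p ∈ z.support, z p • Finsupp.single p (1 : ℚ) := by
    conv_lhs => rw [← z.sum_single]
    rw [Finsupp.sum]
    apply Finset.sum_congr rfl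
    intro p _
    simp
  have h3 : ∑ g, α g • z.mapDomain (act ζ g) = ∑ p ∈ z.support, z p • ∑ g,
      α g • (Finsupp.single (act ζ g p) (1 : ℚ) - Finsupp.single (act ζ g q) 1) := by
    have h4 : ∀ g : J → ZMod m, z.mapDomain (act ζ g) =
        ∑ p ∈ z.support, z p • Finsupp.single (act ζ g p) (1 : ℚ) := by
      intro g
      conv_lhs => rw [h2]
      rw [Finsupp.mapDomain_finsetSum]
      apply Finset.sum_congr rfl
      intro p _
      rw [Finsupp.mapDomain_smul, Finsupp.mapDomain_single]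
    have h5 : ∀ g : J → ZMod m,
        ∑ p ∈ z.support, z p • Finsupp.single (act ζ g q) (1 : ℚ) = 0 := by
      intro g
      rw [← Finset.sum_smul, hdeg', zero_smul]
    simp only [Finset.smul_sum]
    rw [Finset.sum_comm]
    apply Finset.sum_congr rfl
    intro g _
    have h6 : ∀ p : ℙ k (J → k), z p • α g • (Finsupp.single (act ζ g p) (1 : ℚ) -
        Finsupp.single (act ζ g q) 1) = α g • (z p • Finsupp.single (act ζ g p) (1 : ℚ) -
        z p • Finsupp.single (act ζ g q) (1 : ℚ)) := by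
      intro p
      rw [← smul_sub, smul_comm]
    rw [Finset.sum_congr rfl fun p _ => h6 p, ← Finset.smul_sum, Finset.sum_sub_distrib, h5,
      sub_zero, h4]
  rw [h3]
  apply Submodule.sum_mem
  intro p hp
  exact Submodule.smul_mem _ _ (algebra_rational hζ hf hd hm α hα (hz p hp) (hz q hq))

end Pool.Agent.DCIG
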