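import Pool.Agent.DCIG.CommonZero

/-!
# Restriction of forms to lines
-/

open Polynomial

namespace Pool.Agent.DCIG

universe u

variable {k : Type u} [Field k] {J : Type}

lemma eval_eq_aeval (w : J → k) (f : MvPolynomial J k) :
    MvPolynomial.eval w f = MvPolynomial.aeval w f := by
  rw [← MvPolynomial.coe_aeval_eq_eval]
  rfl

/-- forms are homogeneous functions -/
lemma aeval_mul {A : Type*} [CommRing A] [Algebra k A] {f : MvPolynomial J k} {d : ℕ}
    (hf : f.IsHomogeneous d) (c : A) (w : J → A) :
    MvPolynomial.aeval (fun j => c * w j) f = c ^ d * MvPolynomial.aeval w f := by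
  classical
  rw [MvPolynomial.aeval_def, MvPolynomial.aeval_def, MvPolynomial.eval₂_eq,
    MvPolynomial.eval₂_eq, Finset.mul_sum]
  apply Finset.sum_congr rfl
  intro n hn
  have h1 : n.degree = d := by
    by_contra h
    exact (MvPolynomial.mem_support_iff.1 hn) (hf.coeff_eq_zero h)
  have h2 : ∏ i ∈ n.support, (c * w i) ^ n i = c ^ d * ∏ i ∈ n.support, w i ^ n i := by
    simp only [mul_pow]
    rw [Finset.prod_mul_distrib, Finset.prod_pow_eq_pow_sum, ← h1]
    rfl
  rw [h2]
  ring

lemma eval_mul {f : MvPolynomial J k} {d : ℕ} (hf : f.IsHomogeneous d) (c : k) (w : J → k) :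
    MvPolynomial.eval (fun j => c * w j) f = c ^ d * MvPolynomial.eval w f := by
  rw [← MvPolynomial.coe_aeval_eq_eval, ← MvPolynomial.coe_aeval_eq_eval]
  exact aeval_mul hf c w

lemma eval_zero_of_homogeneous {f : MvPolynomial J k} {d : ℕ} (hf : f.IsHomogeneous d)
    (hd : d ≠ 0) : MvPolynomial.eval 0 f = 0 := by
  have h1 := eval_mul hf 0 0
  have h2 : (fun j => (0 : k) * (0 : J → k) j) = 0 := by
    funext j
    simp
  rwa [zero_pow hd, zero_mul, h2] at h1

/-- the restriction of `f` to the line through `z` and `v` -/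
noncomputable def line {A : Type*} [CommRing A] [Algebra k A] (z v : J → A)
    (f : MvPolynomial J k) : A[X] :=
  MvPolynomial.aeval (fun j => C (z j) + X * C (v j)) f

lemma line_map {A B : Type*} [CommRing A] [Algebra k A] [CommRing B] [Algebra k B] (g : A →ₐ[k] B)
    (z v : J → A) (f : MvPolynomial J k) :
    (line z v f).map (g : A →+* B) = line (fun j => g (z j)) (fun j => g (v j)) f := by
  unfold line
  have h1 : Polynomial.map (g : A →+* B) (MvPolynomial.aeval (fun j => C (z j) + X * C (v j)) f) =
      Polynomial.mapAlgHom g (MvPolynomial.aeval (fun j => C (z j) + X * C (v j)) f) := rfl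
  rw [h1, MvPolynomial.comp_aeval_apply]
  congr 2
  funext j
  simp

lemma line_coeff_zero (z v : J → k) (f : MvPolynomial J k) :
    (line z v f).coeff 0 = MvPolynomial.eval z f := by
  rw [Polynomial.coeff_zero_eq_eval_zero]
  unfold line
  have h1 : eval 0 (MvPolynomial.aeval (fun j => C (z j) + X * C (v j)) f) =
      (Polynomial.aeval (0 : k)) (MvPolynomial.aeval (fun j => C (z j) + X * C (v j)) f) := by
    rw [Polynomial.coe_aeval_eq_eval]
  rw [h1, MvPolynomial.comp_aeval_apply, eval_eq_aeval]
  exact congrArg (fun w => MvPolynomial.aeval w f) (funext fun j => by simp)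

lemma line_coeff_of_lt {z v : J → k} {f : MvPolynomial J k} {d : ℕ} (hf : f.IsHomogeneous d)
    {n : ℕ} (hn : d < n) : (line z v f).coeff n = 0 := by
  apply Polynomial.coeff_eq_zero_of_natDegree_lt
  refine lt_of_le_of_lt (MvPolynomial.aeval_natDegree_le f hf.totalDegree_le _ (n := 1) ?_) ?_
  · intro j
    compute_degree
  · omega

/-- the coefficients of the restriction to the line through a fixed point and a variable point -/
lemma line_coeff_homogeneous {τ : Type*} (z : J → k) {V : J → MvPolynomial τ k}
    (hV : ∀ j, (V j).IsHomogeneous 1) (f : MvPolynomial J k) (n : ℕ) :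
    ((line (fun j => MvPolynomial.C (z j)) V f).coeff n).IsHomogeneous n := by
  classical
  -- the subring of the polynomials with homogeneous coefficients
  have hC : ∀ a : k, ∀ n, ((C (MvPolynomial.C a) : (MvPolynomial τ k)[X]).coeff n).IsHomogeneous
      n := by
    intro a n
    rw [Polynomial.coeff_C]
    split_ifs with h
    · rw [h]; exact MvPolynomial.isHomogeneous_C _ _
    · exact MvPolynomial.isHomogeneous_zero _ _ _
  have hadd : ∀ P Q : (MvPolynomial τ k)[X], (∀ n, (P.coeff n).IsHomogeneous n) →
      (∀ n, (Q.coeff n).IsHomogeneous n) → ∀ n, ((P + Q).coeff n).IsHomogeneous n := by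
    intro P Q hP hQ n
    rw [Polynomial.coeff_add]
    exact (hP n).add (hQ n)
  have hmul : ∀ P Q : (MvPolynomial τ k)[X], (∀ n, (P.coeff n).IsHomogeneous n) →
      (∀ n, (Q.coeff n).IsHomogeneous n) → ∀ n, ((P * Q).coeff n).IsHomogeneous n := by
    intro P Q hP hQ n
    rw [Polynomial.coeff_mul]
    apply MvPolynomial.IsHomogeneous.sum
    intro x hx
    have hx' : x.1 + x.2 = n := by simpa using hx
    rw [← hx']
    exact (hP x.1).mul (hQ x.2)
  unfold line
  induction f using MvPolynomial.induction_on generalizing n with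
  | C a =>
    have h1 : MvPolynomial.aeval (fun j => C (MvPolynomial.C (z j)) + X * C (V j))
        (MvPolynomial.C a) = (C (MvPolynomial.C a) : (MvPolynomial τ k)[X]) := by
      rw [MvPolynomial.aeval_C]
      rfl
    rw [h1]
    exact hC a n
  | add p q hp hq =>
    rw [map_add]
    exact hadd _ _ (fun n => hp n) (fun n => hq n) n
  | mul_X p j hp =>
    rw [map_mul, MvPolynomial.aeval_X]
    refine hmul _ _ (fun n => hp n) (fun n => ?_) n
    refine hadd _ _ (hC (z j)) (fun n => ?_) n
    rcases n with _ | n
    · rw [Polynomial.coeff_X_mul_zero]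
      exact MvPolynomial.isHomogeneous_zero _ _ _
    · rw [Polynomial.coeff_X_mul, Polynomial.coeff_C]
      split_ifs with h
      · rw [h]; exact hV j
      · exact MvPolynomial.isHomogeneous_zero _ _ _

/-- values on the line -/
lemma aeval_line_zero {z v : J → k} {f : MvPolynomial J k} {d : ℕ} (hf : f.IsHomogeneous d)
    (hl : line z v f = 0) {P : J → k[X]} {A B : k[X]} (hA : A ≠ 0)
    (hP : ∀ j, P j = A * C (z j) + B * C (v j)) : MvPolynomial.aeval P f = 0 := by
  have hA' : algebraMap k[X] (RatFunc k) A ≠ 0 := by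
    rw [Ne, map_eq_zero_iff _ (RatFunc.algebraMap_injective k)]
    exact hA
  apply RatFunc.algebraMap_injective k
  rw [map_zero]
  set t : RatFunc k := algebraMap k[X] (RatFunc k) B / algebraMap k[X] (RatFunc k) A with ht
  have h1 : (algebraMap k[X] (RatFunc k)) (MvPolynomial.aeval P f) =
      MvPolynomial.aeval (fun j => algebraMap k[X] (RatFunc k) (P j)) f := by
    have := MvPolynomial.comp_aeval_apply (IsScalarTower.toAlgHom k k[X] (RatFunc k)) (f := P) f
    exact this
  have h2 : (fun j => algebraMap k[X] (RatFunc k) (P j)) = fun j =>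
      algebraMap k[X] (RatFunc k) A * (algebraMap k (RatFunc k) (z j) +
        t * algebraMap k (RatFunc k) (v j)) := by
    funext j
    rw [hP j, map_add, map_mul, map_mul, ht]
    have e1 : ∀ c : k, algebraMap k[X] (RatFunc k) (C c) = algebraMap k (RatFunc k) c := fun c =>
      (IsScalarTower.algebraMap_apply k k[X] (RatFunc k) c).symm
    rw [e1, e1]
    field_simp
  rw [h1, h2, aeval_mul hf]
  have h3 : MvPolynomial.aeval (fun j => algebraMap k (RatFunc k) (z j) +
      t * algebraMap k (RatFunc k) (v j)) f = Polynomial.aeval t (line z v f) := by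
    unfold line
    rw [MvPolynomial.comp_aeval_apply]
    refine congrArg (fun w => MvPolynomial.aeval w f) (funext fun j => ?_)
    rw [map_add, map_mul, Polynomial.aeval_X, Polynomial.aeval_C, Polynomial.aeval_C]
  rw [h3, hl, map_zero, mul_zero]

/-- a line on which only the leading coefficient may be nonzero -/
lemma line_zero_of_coeff [Infinite k] {z v : J → k} {f : MvPolynomial J k} {d : ℕ}
    (hf : f.IsHomogeneous d) (hz : MvPolynomial.eval z f = 0) (hv : MvPolynomial.eval v f = 0)
    (h : ∀ n, 1 ≤ n → n < d → (line z v f).coeff n = 0) : line z v f = 0 := by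
  have h1 : line z v f = C ((line z v f).coeff d) * X ^ d := by
    ext n
    rw [Polynomial.coeff_C_mul_X_pow]
    split_ifs with hn
    · rw [hn]
    · rcases Nat.lt_or_ge n d with h2 | h2
      · rcases Nat.eq_zero_or_pos n with h3 | h3
        · rw [h3, line_coeff_zero, hz]
        · exact h n h3 h2
      · exact line_coeff_of_lt hf (lt_of_le_of_ne h2 (Ne.symm hn))
  have hev : ∀ (a b : J → k) (t : k), (line a b f).eval t =
      MvPolynomial.eval (fun j => a j + t * b j) f := by
    intro a b t
    unfold line
    have h2 : eval t (MvPolynomial.aeval (fun j => C (a j) + X * C (b j)) f) =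
        (Polynomial.aeval t) (MvPolynomial.aeval (fun j => C (a j) + X * C (b j)) f) := by
      rw [Polynomial.coe_aeval_eq_eval]
    rw [h2, MvPolynomial.comp_aeval_apply, eval_eq_aeval]
    refine congrArg (fun w => MvPolynomial.aeval w f) (funext fun j => ?_)
    rw [map_add, map_mul, Polynomial.aeval_X, Polynomial.aeval_C, Polynomial.aeval_C]
    rfl
  set c := (line z v f).coeff d with hc
  have h2 : ∀ s : k, s ≠ 0 → (line v z f).eval s = c := by
    intro s hs
    have h3 := hev z v s⁻¹
    rw [h1, Polynomial.eval_mul, eval_C, eval_pow, eval_X] at h3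
    have h4 : (fun j => z j + s⁻¹ * v j) = fun j => s⁻¹ * (v j + s * z j) := by
      funext j
      field_simp
      ring
    rw [h4, Pool.Agent.DCIG.eval_mul hf] at h3
    rw [hev]
    have h5 : (s⁻¹) ^ d ≠ 0 := pow_ne_zero _ (inv_ne_zero hs)
    have h6 : (s⁻¹) ^ d * MvPolynomial.eval (fun j => v j + s * z j) f = (s⁻¹) ^ d * c := by
      rw [← h3]; ring
    exact mul_left_cancel₀ h5 h6
  have h3 : line v z f = C c := by
    apply Polynomial.eq_of_infinite_eval_eq
    refine Set.Infinite.mono (s := {s : k | s ≠ 0}) ?_ ?_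
    · intro s hs
      change eval s (line v z f) = eval s (C c)
      rw [h2 s hs, eval_C]
    · exact (Set.finite_singleton (0 : k)).infinite_compl
  have h4 : c = 0 := by
    have h5 := line_coeff_zero v z f
    rw [h3, Polynomial.coeff_C_zero, hv] at h5
    exact h5
  rw [h1, h4]
  simp

/-- a form vanishing on the line vanishes at the end point -/
lemma eval_of_line_zero {z v : J → k} {f : MvPolynomial J k} {d : ℕ} (hf : f.IsHomogeneous d)
    (hl : line z v f = 0) : MvPolynomial.eval v f = 0 := by
  have h1 := aeval_line_zero hf hl (P := fun j => X * C (z j) + (1 - X) * C (v j)) (A := X)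
    (B := 1 - X) X_ne_zero (fun j => rfl)
  have h2 := congrArg (Polynomial.aeval (0 : k)) h1
  rw [MvPolynomial.comp_aeval_apply, map_zero] at h2
  rw [eval_eq_aeval, ← h2]
  exact congrArg (fun w => MvPolynomial.aeval w f) (funext fun j => by simp)

end Pool.Agent.DCIG
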