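import Pool.Agent.DCIG.Defs
import Pool.Agent.DCIG.Line
import Pool.Agent.DCI57.Relation

/-!
# The diagonal group acts on the complete intersection; values of morphisms
-/

open scoped LinearAlgebra.Projectivization

namespace Pool.Agent.DCIG

open Pool.Agent.ZCyc Pool.Agent.DCI57

universe u w

variable {k : Type u} [Field k] {J : Type} {m : ℕ} {r : ℕ} {f : Fin r → MvPolynomial J k}
  {d : Fin r → ℕ}

lemma eval_rep {f : MvPolynomial J k} {d : ℕ} (hf : f.IsHomogeneous d) {v w : J → k} {a : k}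
    (h : ∀ j, w j = a * v j) (hv : MvPolynomial.eval v f = 0) : MvPolynomial.eval w f = 0 := by
  have h1 : w = fun j => a * v j := funext h
  rw [h1, eval_mul hf, hv, mul_zero]

lemma act_mem (hf : ∀ i, (f i).IsHomogeneous (d i)) {ζ : kˣ} (hζ : ζ ^ m = 1)
    {p : ℙ k (J → k)} (hp : p ∈ Zeros m f) (g : J → ZMod m) : act ζ g p ∈ Zeros m f := by
  intro i
  obtain ⟨a, ha, h1⟩ := act_rep ζ g p
  apply eval_rep (hf i) (v := fun j => p.rep j ^ m) (a := a ^ m) _ (hp i)
  intro j
  rw [h1, mul_pow, mul_pow]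
  have : (((ζ ^ (g j).val : kˣ) : k)) ^ m = 1 := by
    rw [← Units.val_pow_eq_pow_val, ← pow_mul, mul_comm, pow_mul, hζ, one_pow, Units.val_one]
  rw [this, one_mul]

/-- values of forms -/
lemma at_aeval {F : Type*} [Field F] [Algebra k F] {v : Place k F} {x : J → F} {c : J → k}
    (h : ∀ j, v.At (x j) (c j)) (f : MvPolynomial J k) :
    v.At (MvPolynomial.aeval x f) (MvPolynomial.eval c f) := by
  induction f using MvPolynomial.induction_on with
  | C a =>
    rw [MvPolynomial.aeval_C, MvPolynomial.eval_C]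
    exact Place.at_const a
  | add p q hp hq =>
    rw [map_add, map_add]
    exact hp.add hq
  | mul_X p j hp =>
    rw [map_mul, map_mul, MvPolynomial.aeval_X, MvPolynomial.eval_X]
    exact hp.mul (h j)

/-- forms which vanish on the curve vanish at its points -/
lemma IsValue.eval_zero {F : Type*} [Field F] [Algebra k F] {v : Place k F} {x : J → F}
    {p : ℙ k (J → k)} (h : IsValue v x p) {f : MvPolynomial J k} {d : ℕ} (hf : f.IsHomogeneous d)
    (hx : MvPolynomial.aeval (fun j => x j ^ m) f = 0) :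
    MvPolynomial.eval (fun j => p.rep j ^ m) f = 0 := by
  obtain ⟨g, hg⟩ := isValue_iff.1 h
  have h1 := at_aeval (fun j => (hg j).pow m) f
  have h2 : (fun j => (g * x j) ^ m) = fun j => g ^ m * x j ^ m := funext fun j => mul_pow _ _ _
  rw [h2, aeval_mul hf, hx, mul_zero] at h1
  exact h1.unique (by simpa using Place.at_const (v := v) (0 : k))

lemma IsValue.mem_Zeros {F : Type*} [Field F] [Algebra k F] {v : Place k F} {x : J → F}
    {p : ℙ k (J → k)} (h : IsValue v x p) (hf : ∀ i, (f i).IsHomogeneous (d i))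
    (hx : ∀ i, MvPolynomial.aeval (fun j => x j ^ m) (f i) = 0) : p ∈ Zeros m f :=
  fun i => IsValue.eval_zero h (hf i) (hx i)

/-- points with given `m`-th powers -/
lemma exists_point [IsAlgClosed k] [NeZero m] (hf : ∀ i, (f i).IsHomogeneous (d i)) {v : J → k}
    (hv : v ≠ 0) (hc : ∀ i, MvPolynomial.eval v (f i) = 0) :
    ∃ q ∈ Zeros m f, ∃ e : k, e ≠ 0 ∧ ∀ j, v j = e * q.rep j ^ m := by
  have h1 : ∀ j, ∃ y : k, y ^ m = v j := fun j => IsAlgClosed.exists_pow_nat_eq _ (NeZero.pos m)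
  choose y hy using h1
  have hy0 : y ≠ 0 := by
    rintro rfl
    apply hv
    funext j
    rw [← hy j]
    simp [NeZero.ne m]
  obtain ⟨a, ha, h2⟩ := mk_rep_exists hy0
  have h3 : ∀ j, (Projectivization.mk k y hy0).rep j ^ m = a ^ m * v j := by
    intro j
    rw [h2 j, mul_pow, hy]
  refine ⟨Projectivization.mk k y hy0, fun i => eval_rep (hf i) h3 (hc i), (a ^ m)⁻¹,
    inv_ne_zero (pow_ne_zero _ ha), fun j => ?_⟩
  rw [h3, inv_mul_cancel_left₀ (pow_ne_zero _ ha)]

end Pool.Agent.DCIG
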