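import Pool.Agent.DCI57.Defs

/-!
# Complete intersections invariant under the diagonal group: definitions

The points of the projective space for which the point with the coordinates `x j ^ m` is a common
zero of given forms.
-/

open scoped LinearAlgebra.Projectivization

namespace Pool.Agent.DCIG

universe u

/-- The closed subset of the projective space given by the equations
`f i (x 0 ^ m, x 1 ^ m, …) = 0`. -/
def Zeros {k : Type u} [Field k] {J : Type} (m : ℕ) {r : ℕ} (f : Fin r → MvPolynomial J k) :
    Set (ℙ k (J → k)) :=
  {p | ∀ i, MvPolynomial.eval (fun j => p.rep j ^ m) (f i) = 0}

end Pool.Agent.DCIG
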