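import Pool.Agent.DCIG.Line

/-!
# A line through a given point
-/

open Polynomial

namespace Pool.Agent.DCIG

universe u

/-- a line through the point `z` along which the coordinates in each class are proportional -/
theorem exists_pencil {k : Type u} [Field k] [IsAlgClosed k] {J : Type} [Fintype J] [DecidableEq J]
    {r e : ℕ} {f : Fin r → MvPolynomial J k} {d : Fin r → ℕ} (hf : ∀ i, (f i).IsHomogeneous (d i))
    {z : J → k} (hz0 : ∀ i, MvPolynomial.eval z (f i) = 0) {S : Finset J} (hz : ∀ j ∈ S, z j ≠ 0)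
    (κ : J → Option (Fin e)) (hκ : ∀ B, ∃ j ∈ S, κ j = B)
    (hcard : S.card + ∑ i, d i < Fintype.card J + e) :
    ∃ (v : J → k) (β : Option (Fin e) → k), v ≠ 0 ∧ (∀ i, line z v (f i) = 0) ∧ β none = 0 ∧
      ∀ j ∈ S, v j = β (κ j) * z j := by
  classical
  set V : J → MvPolynomial ({j // j ∉ S} ⊕ Fin e) k := fun j =>
    if h : j ∈ S then (match κ j with
      | none => 0
      | some B => MvPolynomial.C (z j) * MvPolynomial.X (Sum.inr B))
    else MvPolynomial.X (Sum.inl ⟨j, h⟩) with hV
  have hVh : ∀ j, (V j).IsHomogeneous 1 := by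
    intro j
    simp only [hV]
    split_ifs with h
    · rcases κ j with _ | B
      · exact MvPolynomial.isHomogeneous_zero _ _ _
      · exact MvPolynomial.isHomogeneous_C_mul_X _ _
    · exact MvPolynomial.isHomogeneous_X _ _
  set G : (Σ i, Fin (d i)) → MvPolynomial ({j // j ∉ S} ⊕ Fin e) k := fun s =>
    (line (fun j => MvPolynomial.C (z j)) V (f s.1)).coeff (s.2 + 1) with hG
  have hcard' : Fintype.card (Σ i, Fin (d i)) < Fintype.card ({j // j ∉ S} ⊕ Fin e) := by
    have h1 : Fintype.card {j // j ∉ S} = Fintype.card J - S.card := by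
      rw [Fintype.card_subtype_compl]
      simp
    have h2 : S.card ≤ Fintype.card J := Finset.card_le_univ S
    simp only [Fintype.card_sigma, Fintype.card_fin, Fintype.card_sum, h1]
    omega
  obtain ⟨ν, hν, hνG⟩ := exists_common_zero G hcard' (fun s =>
    eval_zero_of_homogeneous (line_coeff_homogeneous z hVh (f s.1) _) (Nat.succ_ne_zero _))
  refine ⟨fun j => MvPolynomial.eval ν (V j), fun B => match B with
    | none => 0
    | some B => ν (Sum.inr B), ?_, ?_, rfl, ?_⟩
  · intro h0
    apply hν
    funext s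
    rcases s with ⟨j, hj⟩ | B
    · have h1 := congrFun h0 j
      simp only [hV, dif_neg hj, MvPolynomial.eval_X] at h1
      exact h1
    · obtain ⟨j, hj, hjB⟩ := hκ (some B)
      have h1 := congrFun h0 j
      simp only [hV, dif_pos hj, hjB, map_mul, MvPolynomial.eval_C, MvPolynomial.eval_X] at h1
      exact (mul_eq_zero.1 h1).resolve_left (hz j hj)
  · intro i
    have hmap : line z (fun j => MvPolynomial.eval ν (V j)) (f i) =
        (line (fun j => MvPolynomial.C (z j)) V (f i)).map (MvPolynomial.eval ν) := by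
      have h1 := line_map (MvPolynomial.aeval ν : MvPolynomial ({j // j ∉ S} ⊕ Fin e) k →ₐ[k] k)
        (fun j => MvPolynomial.C (z j)) V (f i)
      rw [← MvPolynomial.coe_aeval_eq_eval]
      rw [show ((MvPolynomial.aeval ν : MvPolynomial ({j // j ∉ S} ⊕ Fin e) k →ₐ[k] k) :
        MvPolynomial ({j // j ∉ S} ⊕ Fin e) k →+* k) = RingHomClass.toRingHom
          (MvPolynomial.aeval ν : MvPolynomial ({j // j ∉ S} ⊕ Fin e) k →ₐ[k] k) from rfl] at *
      rw [h1]
      congr 1
      · funext j
        simp
    ext n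
    rw [Polynomial.coeff_zero]
    rcases Nat.eq_zero_or_pos n with hn | hn
    · rw [hn, line_coeff_zero, hz0 i]
    rcases Nat.lt_or_ge (d i) n with hd | hd
    · exact line_coeff_of_lt (hf i) hd
    · rw [hmap, Polynomial.coeff_map]
      have h1 := hνG ⟨i, ⟨n - 1, by omega⟩⟩
      simp only [hG] at h1
      rwa [Nat.sub_add_cancel hn] at h1
  · intro j hj
    simp only [hV, dif_pos hj]
    rcases κ j with _ | B
    · simp
    · simp [mul_comm]

end Pool.Agent.DCIG
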