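import Pool.Agent.DCIG.Relation
import Pool.Agent.DCIG.Pencil
import Pool.Agent.DCI57.Vanish

/-!
# Vanishing of the part of the Chow group belonging to a character
-/

open Polynomial
open scoped LinearAlgebra.Projectivization

namespace Pool.Agent.DCIG

open Pool.Agent.ZCyc Pool.Agent.DCI57

universe u w

variable {k : Type u} [Field k] {J : Type} [Fintype J] [DecidableEq J] {m : ℕ} [NeZero m]

variable {R : Type w} [Field R] [CharZero R]

/-- The part of the Chow group of zero-cycles belonging to the character `ψ` is zero if the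
exponents of the character can be divided into sufficiently many zero-sum blocks. -/
theorem vanish [IsAlgClosed k] [CharZero k] {ζ : kˣ} (hζ : IsPrimitiveRoot (ζ : k) m) {r : ℕ}
    {f : Fin r → MvPolynomial J k} {d : Fin r → ℕ} (hf : ∀ i, (f i).IsHomogeneous (d i))
    {ω : R} (hω : IsPrimitiveRoot ω m) {a : J → ZMod m}
    {ψ : AddChar (J → ZMod m) R} (hψ : ∀ t, ψ t = ω ^ (∑ j, a j * t j).val)
    {S : Finset J} (hS : ∀ j, j ∈ S ↔ a j ≠ 0) (hne : S.Nonempty) {e : ℕ} (b : J → Fin e)
    (hb : ∀ B, ∃ j ∈ S, b j = B) (hsum : ∀ B, ∑ j ∈ S with b j = B, a j = 0)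
    (hcard : S.card + ∑ i, d i < Fintype.card J + e) {p : ℙ k (J → k)} (hp : p ∈ Zeros m f) :
    op ζ ψ (Finsupp.single p 1) ∈ ratEquiv R (Zeros m f) := by
  classical
  have hζ1 : ζ ^ m = 1 := by
    apply Units.ext
    push_cast
    exact hζ.pow_eq_one
  have hm : 0 < m := NeZero.pos m
  have hsingle : ∀ j, ψ (Pi.single j 1) = ω ^ (a j).val := by
    intro j
    rw [hψ]
    congr 2
    rw [Finset.sum_eq_single j]
    · simp
    · intro i _ hij
      simp [Pi.single_eq_of_ne hij]
    · simp
  have hωa : ∀ j ∈ S, ω ^ (a j).val ≠ 1 := by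
    intro j hj h1
    have h2 := (hω.pow_eq_one_iff_dvd _).1 h1
    have h3 : (a j).val = 0 := Nat.eq_zero_of_dvd_of_lt h2 (ZMod.val_lt _)
    exact (hS j).1 hj ((ZMod.val_eq_zero _).1 h3)
  have hzero : ∀ q : ℙ k (J → k), (∃ j ∈ S, q.rep j = 0) → op ζ ψ (Finsupp.single q 1) = 0 := by
    rintro q ⟨j, hj, hqj⟩
    apply op_eq_zero hζ1 ψ (h := Pi.single j 1)
    · apply act_of_zero
      intro i hi
      by_cases hij : i = j
      · rw [hij, hqj]
      · exact absurd (Pi.single_eq_of_ne hij _) hi
    · rw [hsingle]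
      exact hωa j hj
  by_cases hpz : ∃ j ∈ S, p.rep j = 0
  · rw [hzero p hpz]
    exact Submodule.zero_mem _
  push Not at hpz
  obtain ⟨j₀, hj₀⟩ := hne
  -- the classes
  set κ : J → Option (Fin e) := fun j => if j = j₀ then none else some (b j) with hκdef
  have hκ : ∀ B, ∃ j ∈ S, κ j = B := by
    rintro (_ | B)
    · exact ⟨j₀, hj₀, by simp [hκdef]⟩
    · by_cases hB : ∃ j ∈ S, b j = B ∧ j ≠ j₀
      · obtain ⟨j, hj, hjB, hjj⟩ := hB
        exact ⟨j, hj, by simp [hκdef, hjj, hjB]⟩
      · exfalso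
        push Not at hB
        obtain ⟨j, hj, hjB⟩ := hb B
        have hjj := hB j hj hjB
        subst hjj
        have h1 := hsum B
        rw [Finset.sum_eq_single_of_mem j (Finset.mem_filter.2 ⟨hj, hjB⟩)] at h1
        · exact (hS j).1 hj h1
        · intro i hi hij
          rw [Finset.mem_filter] at hi
          exact absurd (hB i hi.1 hi.2) hij
  obtain ⟨v, β, hv0, hvc, hβ, hvβ⟩ := exists_pencil hf (z := fun j => p.rep j ^ m) hp (S := S)
    (fun j hj => pow_ne_zero _ (hpz j hj)) κ hκ hcard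
  obtain ⟨q, hq, e', he', hqv⟩ := exists_point (m := m) hf hv0 (fun i => eval_of_line_zero (hf i) (hvc i))
  -- the normalising constant
  set β' : k := if β (some (b j₀)) = 0 then 1 else β (some (b j₀)) with hβ'
  have hβ'0 : β' ≠ 0 := by
    rw [hβ']
    split_ifs with h
    · exact one_ne_zero
    · exact h
  set P : J → k[X] := fun j => C (β' * p.rep j ^ m) * X ^ m + C (v j) * (1 - X ^ m) with hPdef
  have hP1 : ∀ j, (P j).eval 1 = β' * p.rep j ^ m := by
    intro j
    simp [hPdef]
  have hP0 : ∀ j, (P j).eval 0 = e' * q.rep j ^ m := by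
    intro j
    simp [hPdef, hm.ne', hqv j]
  have hPc : ∀ i, MvPolynomial.aeval P (f i) = 0 := by
    intro i
    refine aeval_line_zero (hf i) (hvc i) (A := C β' * X ^ m) (B := 1 - X ^ m) ?_ (fun j => ?_)
    · exact mul_ne_zero (C_ne_zero.2 hβ'0) (pow_ne_zero _ X_ne_zero)
    · simp only [hPdef, map_mul, map_pow]
      ring
  -- the product is an `m`-th power
  have hroot : ∃ Q : k[X], ∏ j ∈ S, P j ^ (a j).val = Q ^ m := by
    rw [← Finset.prod_fiberwise S b]
    apply exists_pow_prod
    intro B _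
    have hPS : ∀ j ∈ S, P j = C (p.rep j ^ m) * (C β' * X ^ m + C (β (κ j)) * (1 - X ^ m)) := by
      intro j hj
      simp only [hPdef, hvβ j hj, map_mul]
      ring
    by_cases hB : B = b j₀
    · -- the block of `j₀`
      subst hB
      apply exists_pow_prod
      intro j hj
      rw [Finset.mem_filter] at hj
      obtain ⟨γ, hγ⟩ := IsAlgClosed.exists_pow_nat_eq β' hm
      have h2 : ∃ M : k[X], C β' * X ^ m + C (β (κ j)) * (1 - X ^ m) = M ^ m := by
        by_cases hjj : j = j₀
        · refine ⟨C γ * X, ?_⟩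
          have h3 : β (κ j) = 0 := by
            rw [hjj]
            simp [hκdef, hβ]
          rw [h3, mul_pow, ← map_pow, hγ]
          simp
        · have h3 : κ j = some (b j₀) := by
            simp [hκdef, hjj, hj.2]
          rw [h3]
          by_cases h4 : β (some (b j₀)) = 0
          · refine ⟨X, ?_⟩
            have h5 : β' = 1 := by rw [hβ', if_pos h4]
            rw [h4, h5]
            simp
          · refine ⟨C γ, ?_⟩
            have h5 : β' = β (some (b j₀)) := by rw [hβ', if_neg h4]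
            rw [← map_pow, hγ, h5]
            ring
      obtain ⟨M, hM⟩ := h2
      refine ⟨(C (p.rep j) * M) ^ (a j).val, ?_⟩
      rw [hPS j hj.1, hM]
      simp only [map_pow, mul_pow]
      ring
    · -- another block
      have h2 : ∀ j ∈ S.filter (fun j => b j = B), P j ^ (a j).val =
          (C (p.rep j) ^ (a j).val) ^ m *
            (C β' * X ^ m + C (β (some B)) * (1 - X ^ m)) ^ (a j).val := by
        intro j hj
        rw [Finset.mem_filter] at hj
        have hjj : j ≠ j₀ := by
          rintro rfl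
          exact hB hj.2.symm
        have h3 : κ j = some B := by
          simp [hκdef, hjj, hj.2]
        rw [hPS j hj.1, h3, mul_pow, map_pow, ← pow_mul, ← pow_mul, mul_comm m]
      rw [Finset.prod_congr rfl h2, Finset.prod_mul_distrib, Finset.prod_pow_eq_pow_sum]
      have h4 : m ∣ ∑ j ∈ S with b j = B, (a j).val := by
        rw [← ZMod.natCast_eq_zero_iff]
        push_cast
        simp only [ZMod.natCast_val, ZMod.cast_id', id_eq]
        exact hsum B
      obtain ⟨n, hn⟩ := h4
      refine ⟨(∏ j ∈ S with b j = B, C (p.rep j) ^ (a j).val) *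
        (C β' * X ^ m + C (β (some B)) * (1 - X ^ m)) ^ n, ?_⟩
      rw [hn, mul_pow, Finset.prod_pow, ← pow_mul, mul_comm m n]
  obtain ⟨Q, hQ⟩ := hroot
  have hPne : ∀ j ∈ S, P j ≠ 0 := by
    intro j hj h0
    have h1 := hP1 j
    rw [h0, eval_zero] at h1
    exact mul_ne_zero hβ'0 (pow_ne_zero _ (hpz j hj)) h1.symm
  obtain ⟨g, h, hgh⟩ := relation (R := R) hζ hf hPc hβ'0 he' hP1 hP0 ψ
    (fun {F} _ _ _ _ x hx τ t ht => by
      rw [hψ, sum_eq_zero_of_root hζ hx hPne (fun j hj => by
        by_contra h0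
        exact hj ((hS j).2 h0)) hQ ht]
      simp)
  -- the point `q` lies on a fixed hyperplane
  have hq0 : (act ζ h q).rep j₀ = 0 := by
    rw [act_rep_zero]
    have h1 := hqv j₀
    have h2 : v j₀ = 0 := by
      rw [hvβ j₀ hj₀]
      simp [hκdef, hβ]
    rw [h2] at h1
    have h3 := (mul_eq_zero.1 h1.symm).resolve_left he'
    exact pow_eq_zero_iff hm.ne' |>.1 h3
  rw [hzero _ ⟨j₀, hj₀, hq0⟩, sub_zero] at hgh
  rw [← op_act hζ1 ψ g p]
  exact Submodule.smul_mem _ _ hgh

end Pool.Agent.DCIG
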